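import Mathlib

/-!
# Integers composed of the prime factors of `N`
-/

set_option autoImplicit false

open Finset

namespace Pool.Agent.Helper87.PN

/-- the integers of `[1, x]` all of whose prime factors divide `N` -/
def Sm (N x : ℕ) : Finset ℕ := (Icc 1 x).filter fun d => ∀ q ∈ d.primeFactors, q ∣ N

theorem mem_Sm {N x d : ℕ} :
    d ∈ Sm N x ↔ 1 ≤ d ∧ d ≤ x ∧ ∀ q : ℕ, q.Prime → q ∣ d → q ∣ N := by
  rw [Sm, mem_filter, mem_Icc]
  constructor
  · rintro ⟨⟨h1, h2⟩, h3⟩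
    exact ⟨h1, h2, fun q hq hqd => h3 q (Nat.mem_primeFactors.2 ⟨hq, hqd, by omega⟩)⟩
  · rintro ⟨h1, h2, h3⟩
    exact ⟨⟨h1, h2⟩, fun q hq => h3 q (Nat.mem_primeFactors.1 hq).1 (Nat.mem_primeFactors.1 hq).2.1⟩

/-- the integers of `[1, x]` all of whose prime factors are in `P` -/
def SmP (P : Finset ℕ) (x : ℕ) : Finset ℕ := (Icc 1 x).filter fun d => ∀ q ∈ d.primeFactors, q ∈ P

theorem mem_SmP {P : Finset ℕ} {x d : ℕ} :
    d ∈ SmP P x ↔ 1 ≤ d ∧ d ≤ x ∧ ∀ q : ℕ, q.Prime → q ∣ d → q ∈ P := by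
  rw [SmP, mem_filter, mem_Icc]
  constructor
  · rintro ⟨⟨h1, h2⟩, h3⟩
    exact ⟨h1, h2, fun q hq hqd => h3 q (Nat.mem_primeFactors.2 ⟨hq, hqd, by omega⟩)⟩
  · rintro ⟨h1, h2, h3⟩
    exact ⟨⟨h1, h2⟩, fun q hq => h3 q (Nat.mem_primeFactors.1 hq).1 (Nat.mem_primeFactors.1 hq).2.1⟩

theorem smP_step (P : Finset ℕ) {q : ℕ} (hq : q.Prime) (x : ℕ) :
    #(SmP (insert q P) x) ≤ #(SmP P x) + #(SmP (insert q P) (x / q)) := by
  have h1 : SmP (insert q P) x ⊆ SmP P x ∪ (SmP (insert q P) (x / q)).image (fun d => q * d) := by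
    intro d hd
    rw [mem_SmP] at hd
    obtain ⟨h1, h2, h3⟩ := hd
    rw [mem_union]
    by_cases hqd : q ∣ d
    · right
      obtain ⟨d', rfl⟩ := hqd
      rw [mem_image]
      have hd' : 1 ≤ d' := by
        rcases Nat.eq_zero_or_pos d' with h | h
        · rw [h, mul_zero] at h1
          omega
        · exact h
      refine ⟨d', ?_, rfl⟩
      rw [mem_SmP]
      refine ⟨hd', ?_, fun r hr hrd => h3 r hr (Dvd.dvd.mul_left hrd q)⟩
      rw [Nat.le_div_iff_mul_le hq.pos, mul_comm]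
      exact h2
    · left
      rw [mem_SmP]
      refine ⟨h1, h2, fun r hr hrd => ?_⟩
      rcases mem_insert.1 (h3 r hr hrd) with h | h
      · rw [h] at hrd
        exact absurd hrd hqd
      · exact h
  refine (card_le_card h1).trans ((card_union_le _ _).trans ?_)
  exact Nat.add_le_add_left card_image_le _

theorem smP_bound {δ : ℝ} (hδ : 0 < δ) (P : Finset ℕ) : (∀ q ∈ P, q.Prime) → ∀ x : ℕ,
    (#(SmP P x) : ℝ) ≤ (x : ℝ) ^ δ * ∏ q ∈ P, (1 - (q : ℝ) ^ (-δ))⁻¹ := by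
  classical
  induction P using Finset.induction_on with
  | empty =>
    intro _ x
    rw [prod_empty, mul_one]
    rcases Nat.eq_zero_or_pos x with h | h
    · subst h
      have : SmP ∅ 0 = ∅ := by
        rw [SmP, Icc_eq_empty (by omega), filter_empty]
      rw [this, card_empty, Nat.cast_zero]
      positivity
    · have h1 : SmP ∅ x ⊆ {1} := by
        intro d hd
        rw [mem_SmP] at hd
        obtain ⟨h1, _, h3⟩ := hd
        rw [mem_singleton]
        by_contra hne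
        have := h3 (Nat.minFac d) (Nat.minFac_prime hne) (Nat.minFac_dvd d)
        exact absurd this (notMem_empty _)
      have h2 := card_le_card h1
      rw [card_singleton] at h2
      have h3 : (#(SmP ∅ x) : ℝ) ≤ 1 := by exact_mod_cast h2
      refine h3.trans (Real.one_le_rpow ?_ hδ.le)
      exact_mod_cast h
  | insert q P hqP ih =>
    intro hP
    have hq : q.Prime := hP q (mem_insert_self _ _)
    have ih' := ih (fun r hr => hP r (mem_insert_of_mem hr))
    obtain ⟨W, hW⟩ : ∃ W, W = ∏ q ∈ P, (1 - (q : ℝ) ^ (-δ))⁻¹ := ⟨_, rfl⟩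
    rw [prod_insert hqP, ← hW]
    rw [← hW] at ih'
    have hq1 : (1 : ℝ) < q := by exact_mod_cast hq.one_lt
    have hq0 : (0 : ℝ) < q := by linarith
    obtain ⟨z, hz⟩ : ∃ z, z = (q : ℝ) ^ (-δ) := ⟨_, rfl⟩
    have hz0 : 0 < z := by rw [hz]; exact Real.rpow_pos_of_pos hq0 _
    have hz1 : z < 1 := by
      rw [hz]
      exact Real.rpow_lt_one_of_one_lt_of_neg hq1 (by linarith)
    rw [← hz]
    have hW0 : 0 ≤ W := by
      rw [hW]
      refine prod_nonneg fun r hr => ?_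
      have hr1 : (1 : ℝ) < r := by exact_mod_cast (hP r (mem_insert_of_mem hr)).one_lt
      have := Real.rpow_lt_one_of_one_lt_of_neg hr1 (show -δ < 0 by linarith)
      rw [inv_nonneg]
      linarith
    have h1z : 0 < 1 - z := by linarith
    intro x
    induction x using Nat.strong_induction_on with
    | _ x ihx =>
      rcases Nat.eq_zero_or_pos x with h | h
      · subst h
        have : SmP (insert q P) 0 = ∅ := by
          rw [SmP, Icc_eq_empty (by omega), filter_empty]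
        rw [this, card_empty, Nat.cast_zero]
        have : 0 ≤ (1 - z)⁻¹ := by positivity
        positivity
      · have h1 := smP_step P hq x
        have h2 : x / q < x := Nat.div_lt_self h hq.one_lt
        have h3 := ihx (x / q) h2
        have h4 := ih' x
        have h5 : ((x / q : ℕ) : ℝ) ^ δ ≤ (x : ℝ) ^ δ * z := by
          have h6 : ((x / q : ℕ) : ℝ) ≤ (x : ℝ) / q := Nat.cast_div_le
          calc ((x / q : ℕ) : ℝ) ^ δ ≤ ((x : ℝ) / q) ^ δ :=
                Real.rpow_le_rpow (Nat.cast_nonneg _) h6 hδ.le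
            _ = (x : ℝ) ^ δ * z := by
              rw [hz, Real.div_rpow (Nat.cast_nonneg _) hq0.le, Real.rpow_neg hq0.le]
              rfl
        have h7 : (#(SmP (insert q P) x) : ℝ) ≤ #(SmP P x) + #(SmP (insert q P) (x / q)) := by
          exact_mod_cast h1
        have h8 : ((x / q : ℕ) : ℝ) ^ δ * ((1 - z)⁻¹ * W) ≤ (x : ℝ) ^ δ * z * ((1 - z)⁻¹ * W) := by
          refine mul_le_mul_of_nonneg_right h5 ?_
          have : 0 ≤ (1 - z)⁻¹ := by positivity
          positivity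
        have h9 : (x : ℝ) ^ δ * W + (x : ℝ) ^ δ * z * ((1 - z)⁻¹ * W) =
            (x : ℝ) ^ δ * ((1 - z)⁻¹ * W) := by
          field_simp
          ring
        linarith

theorem one_le_prod' {s : Finset ℕ} {g : ℕ → ℝ} (h : ∀ q ∈ s, 1 ≤ g q) : 1 ≤ ∏ q ∈ s, g q :=
  Finset.prod_induction g (fun x => 1 ≤ x) (fun _ _ ha hb => one_le_mul_of_one_le_of_one_le ha hb)
    le_rfl h

theorem prod_sub {s t : Finset ℕ} (hst : s ⊆ t) {g : ℕ → ℝ} (h : ∀ q ∈ t, 1 ≤ g q) :
    ∏ q ∈ s, g q ≤ ∏ q ∈ t, g q := by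
  rw [← prod_sdiff hst]
  have h1 : 1 ≤ ∏ q ∈ t \ s, g q := one_le_prod' fun q hq => h q (mem_sdiff.1 hq).1
  have h2 : 1 ≤ ∏ q ∈ s, g q := one_le_prod' fun q hq => h q (hst hq)
  calc ∏ q ∈ s, g q = 1 * ∏ q ∈ s, g q := (one_mul _).symm
    _ ≤ _ := mul_le_mul_of_nonneg_right h1 (by linarith)

/-- the number of integers up to `N` composed of the prime factors of `N` -/
theorem smooth_count (δ : ℝ) (hδ : 0 < δ) : ∃ C : ℝ, 0 < C ∧ ∀ N x : ℕ, 1 ≤ N → x ≤ N →
    (#(Sm N x) : ℝ) ≤ C * (N : ℝ) ^ δ := by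
  classical
  obtain ⟨η, hη⟩ : ∃ η, η = δ / 2 := ⟨_, rfl⟩
  have hη0 : 0 < η := by rw [hη]; linarith
  obtain ⟨B, hB⟩ := exists_nat_gt ((2 : ℝ) ^ (1 / η))
  obtain ⟨g, hg⟩ : ∃ g : ℕ → ℝ, ∀ q, g q = (1 - (q : ℝ) ^ (-η))⁻¹ := ⟨_, fun _ => rfl⟩
  have hg1 : ∀ q : ℕ, q.Prime → 1 ≤ g q := by
    intro q hq
    have hq1 : (1 : ℝ) < q := by exact_mod_cast hq.one_lt
    have h1 := Real.rpow_lt_one_of_one_lt_of_neg hq1 (show -η < 0 by linarith)
    have h2 : 0 < (q : ℝ) ^ (-η) := Real.rpow_pos_of_pos (by linarith) _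
    rw [hg, one_le_inv₀ (by linarith)]
    linarith
  have hlarge : ∀ q : ℕ, q.Prime → B ≤ q → g q ≤ (q : ℝ) ^ η := by
    intro q hq hBq
    have hq0 : (0 : ℝ) < q := by exact_mod_cast hq.pos
    have h1 : (2 : ℝ) ≤ (q : ℝ) ^ η := by
      have h2 : (2 : ℝ) ^ (1 / η) ≤ q := by
        have : (B : ℝ) ≤ q := by exact_mod_cast hBq
        linarith
      have h3 := Real.rpow_le_rpow (by positivity) h2 hη0.le
      rw [← Real.rpow_mul (by norm_num), one_div, inv_mul_cancel₀ hη0.ne', Real.rpow_one] at h3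
      exact h3
    rw [hg, Real.rpow_neg hq0.le]
    have h4 : ((q : ℝ) ^ η)⁻¹ ≤ 1 / 2 := by
      rw [inv_le_comm₀ (by positivity) (by norm_num)]
      norm_num
      exact h1
    rw [inv_le_comm₀ (by linarith) (by positivity)]
    linarith
  obtain ⟨C, hC⟩ : ∃ C, C = ∏ q ∈ (range B).filter Nat.Prime, g q := ⟨_, rfl⟩
  have hC1 : 1 ≤ C := by
    rw [hC]
    exact one_le_prod' fun q hq => hg1 q (mem_filter.1 hq).2
  refine ⟨C, by linarith, fun N x hN hx => ?_⟩
  have hN0 : N ≠ 0 := by omega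
  have hNr : (1 : ℝ) ≤ N := by exact_mod_cast hN
  have h1 : Sm N x = SmP N.primeFactors x := by
    ext d
    rw [mem_Sm, mem_SmP]
    constructor
    · rintro ⟨a, b, c⟩
      exact ⟨a, b, fun q hq hqd => Nat.mem_primeFactors.2 ⟨hq, c q hq hqd, hN0⟩⟩
    · rintro ⟨a, b, c⟩
      exact ⟨a, b, fun q hq hqd => (Nat.mem_primeFactors.1 (c q hq hqd)).2.1⟩
  rw [h1]
  have h2 := smP_bound hη0 N.primeFactors (fun q hq => (Nat.mem_primeFactors.1 hq).1) x
  have h3 : ∏ q ∈ N.primeFactors, (1 - (q : ℝ) ^ (-η))⁻¹ ≤ C * (N : ℝ) ^ η := by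
    have e1 : ∏ q ∈ N.primeFactors, (1 - (q : ℝ) ^ (-η))⁻¹ ≤
        ∏ q ∈ N.primeFactors, ((if q < B then g q else 1) * (q : ℝ) ^ η) := by
      refine prod_le_prod (fun q hq => ?_) (fun q hq => ?_)
      · have := hg1 q (Nat.mem_primeFactors.1 hq).1
        rw [← hg]
        linarith
      · have hqp := (Nat.mem_primeFactors.1 hq).1
        have h4 := hg1 q hqp
        have h5 : (1 : ℝ) ≤ (q : ℝ) ^ η := by
          apply Real.one_le_rpow _ hη0.le
          exact_mod_cast hqp.one_lt.le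
        rw [← hg]
        split_ifs with h
        · calc g q = g q * 1 := (mul_one _).symm
            _ ≤ g q * (q : ℝ) ^ η := mul_le_mul_of_nonneg_left h5 (by linarith)
        · rw [one_mul]
          exact hlarge q hqp (by omega)
    refine e1.trans ?_
    rw [prod_mul_distrib]
    have e2 : ∏ q ∈ N.primeFactors, (if q < B then g q else 1) ≤ C := by
      rw [← prod_filter, hC]
      refine prod_sub ?_ fun q hq => hg1 q (mem_filter.1 hq).2
      intro q hq
      rw [mem_filter] at hq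
      rw [mem_filter, mem_range]
      exact ⟨hq.2, (Nat.mem_primeFactors.1 hq.1).1⟩
    have e3 : ∏ q ∈ N.primeFactors, (q : ℝ) ^ η ≤ (N : ℝ) ^ η := by
      rw [Real.finsetProd_rpow _ _ (fun q _ => Nat.cast_nonneg q)]
      refine Real.rpow_le_rpow (by positivity) ?_ hη0.le
      have h4 := Nat.le_of_dvd (by omega) (Nat.prod_primeFactors_dvd N)
      have h5 : ((∏ q ∈ N.primeFactors, q : ℕ) : ℝ) ≤ (N : ℝ) := by exact_mod_cast h4
      rwa [Nat.cast_prod] at h5
    refine mul_le_mul e2 e3 (by positivity) (by linarith)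
  have h4 : (x : ℝ) ^ η ≤ (N : ℝ) ^ η :=
    Real.rpow_le_rpow (Nat.cast_nonneg _) (by exact_mod_cast hx) hη0.le
  have h5 : (N : ℝ) ^ η * (N : ℝ) ^ η = (N : ℝ) ^ δ := by
    rw [← Real.rpow_add (by linarith), hη]
    congr 1
    ring
  refine h2.trans ?_
  calc (x : ℝ) ^ η * ∏ q ∈ N.primeFactors, (1 - (q : ℝ) ^ (-η))⁻¹ ≤
      (N : ℝ) ^ η * (C * (N : ℝ) ^ η) := by
        refine mul_le_mul h4 h3 ?_ (by positivity)
        refine prod_nonneg fun q hq => ?_
        have := hg1 q (Nat.mem_primeFactors.1 hq).1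
        rw [← hg]
        linarith
    _ = C * ((N : ℝ) ^ η * (N : ℝ) ^ η) := by ring
    _ = C * (N : ℝ) ^ δ := by rw [h5]

end Pool.Agent.Helper87.PN
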