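import Mathlib
import Pool.Agent.Helper87.PN.Smooth

/-!
# A nonprincipal character modulo `N` is not close to `1` on the primes
-/

set_option autoImplicit false

open Finset

namespace Pool.Agent.Helper87.PN

/-- decomposition into an `N`-smooth part and a part coprime to `N` -/
theorem decomp (N : ℕ) : ∀ n : ℕ, 1 ≤ n → ∃ d m : ℕ, n = d * m ∧ 1 ≤ d ∧ 1 ≤ m ∧
    (∀ q : ℕ, q.Prime → q ∣ d → q ∣ N) ∧ Nat.Coprime m N := by
  intro n
  induction n using Nat.strong_induction_on with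
  | _ n ih =>
    intro hn
    by_cases hc : Nat.Coprime n N
    · refine ⟨1, n, (one_mul n).symm, le_rfl, hn, fun q hq hq1 => ?_, hc⟩
      exact absurd (Nat.dvd_one.1 hq1) hq.one_lt.ne'
    · obtain ⟨q, hq, hqn, hqN⟩ := Nat.Prime.not_coprime_iff_dvd.1 hc
      obtain ⟨n', rfl⟩ := hqn
      have hn' : 1 ≤ n' := by
        rcases Nat.eq_zero_or_pos n' with h | h
        · rw [h, mul_zero] at hn
          omega
        · exact h
      have hlt : n' < q * n' := by
        have := hq.two_le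
        nlinarith
      obtain ⟨d, m, h1, h2, h3, h4, h5⟩ := ih n' hlt hn'
      refine ⟨q * d, m, by rw [h1]; ring, ?_, h3, fun r hr hrd => ?_, h5⟩
      · exact Nat.mul_pos hq.pos h2
      · rcases (Nat.Prime.dvd_mul hr).1 hrd with h | h
        · rw [(Nat.prime_dvd_prime_iff_eq hr hq).1 h]
          exact hqN
        · exact h4 r hr h

/-- the decomposition is unique -/
theorem decomp_unique {N d m d' m' : ℕ} (hd : ∀ q : ℕ, q.Prime → q ∣ d → q ∣ N)
    (hm : Nat.Coprime m N) (hd' : ∀ q : ℕ, q.Prime → q ∣ d' → q ∣ N) (hm' : Nat.Coprime m' N)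
    (h : d * m = d' * m') : d = d' := by
  have key : ∀ {d m d' m' : ℕ}, (∀ q : ℕ, q.Prime → q ∣ d → q ∣ N) → Nat.Coprime m' N →
      d * m = d' * m' → d ∣ d' := by
    intro d m d' m' hd hm' h
    have h1 : Nat.Coprime d m' := by
      by_contra hc
      obtain ⟨q, hq, hqd, hqm⟩ := Nat.Prime.not_coprime_iff_dvd.1 hc
      exact Nat.Prime.not_coprime_iff_dvd.2 ⟨q, hq, hqm, hd q hq hqd⟩ hm'
    exact h1.dvd_of_dvd_mul_right (Dvd.intro _ h)
  exact Nat.dvd_antisymm (key hd hm' h) (key hd' hm h.symm)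

/-- sums over `[1, x]` by the decomposition -/
theorem sum_decomp {M : Type*} [AddCommMonoid M] (N x : ℕ) (f : ℕ → M) :
    ∑ n ∈ Icc 1 x, f n = ∑ d ∈ Sm N x, ∑ m ∈ (Icc 1 (x / d)).filter (fun m => Nat.Coprime m N),
      f (d * m) := by
  classical
  rw [Finset.sum_sigma']
  symm
  refine Finset.sum_bij (fun a _ => a.1 * a.2) ?_ ?_ ?_ ?_
  · rintro ⟨d, m⟩ h
    rw [mem_sigma, mem_Sm, mem_filter, mem_Icc] at h
    obtain ⟨⟨h1, h2, h3⟩, ⟨h4, h5⟩, h6⟩ := h
    simp only at h1 h2 h3 h4 h5 h6 ⊢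
    rw [mem_Icc]
    refine ⟨Nat.mul_pos h1 h4, ?_⟩
    calc d * m ≤ d * (x / d) := Nat.mul_le_mul_left d h5
      _ ≤ x := Nat.mul_div_le x d
  · rintro ⟨d, m⟩ h ⟨d', m'⟩ h' heq
    rw [mem_sigma, mem_Sm, mem_filter, mem_Icc] at h h'
    obtain ⟨⟨h1, h2, h3⟩, ⟨h4, h5⟩, h6⟩ := h
    obtain ⟨⟨h1', h2', h3'⟩, ⟨h4', h5'⟩, h6'⟩ := h'
    simp only at h1 h2 h3 h4 h5 h6 h1' h2' h3' h4' h5' h6' heq
    have e1 : d = d' := decomp_unique h3 h6 h3' h6' heq
    subst e1
    have e2 : m = m' := Nat.eq_of_mul_eq_mul_left h1 heq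
    rw [e2]
  · intro n hn
    rw [mem_Icc] at hn
    obtain ⟨d, m, h1, h2, h3, h4, h5⟩ := decomp N n hn.1
    have hdn : d ≤ n := by
      rw [h1]
      exact Nat.le_mul_of_pos_right d h3
    refine ⟨⟨d, m⟩, ?_, h1.symm⟩
    rw [mem_sigma, mem_Sm, mem_filter, mem_Icc]
    refine ⟨⟨h2, hdn.trans hn.2, h4⟩, ⟨h3, ?_⟩, h5⟩
    simp only
    rw [Nat.le_div_iff_mul_le h2, mul_comm, ← h1]
    exact hn.2
  · intro a _
    rfl

/-- the sum of the `q`-adic valuations up to `x` -/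
theorem sum_val {q : ℕ} (hq : q.Prime) (x : ℕ) :
    ∑ n ∈ Icc 1 x, ((n.factorization q : ℕ) : ℝ) ≤ 2 * x / q := by
  have hqf : Fact q.Prime := ⟨hq⟩
  have h1 : ∑ n ∈ Icc 1 x, n.factorization q = padicValNat q (x.factorial) := by
    rw [← Nat.factorization_def _ hq]
    induction x with
    | zero => simp
    | succ x ih =>
      rw [Finset.sum_Icc_succ_top (by omega), ih, Nat.factorial_succ,
        Nat.factorization_mul (by omega) (Nat.factorial_ne_zero x), Finsupp.add_apply, add_comm]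
  have h2 := sub_one_mul_padicValNat_factorial (p := q) x
  have h3 : (q - 1) * ∑ n ∈ Icc 1 x, n.factorization q ≤ x := by
    rw [h1, h2]
    exact Nat.sub_le _ _
  have hq2 := hq.two_le
  have h4 : q * ∑ n ∈ Icc 1 x, n.factorization q ≤ 2 * x := by
    have h5 : q ≤ 2 * (q - 1) := by omega
    calc q * ∑ n ∈ Icc 1 x, n.factorization q ≤ 2 * (q - 1) * ∑ n ∈ Icc 1 x, n.factorization q :=
          Nat.mul_le_mul_right _ h5
      _ = 2 * ((q - 1) * ∑ n ∈ Icc 1 x, n.factorization q) := by ring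
      _ ≤ 2 * x := Nat.mul_le_mul_left 2 h3
  have hq0 : (0 : ℝ) < q := by exact_mod_cast hq.pos
  rw [le_div_iff₀ hq0]
  have h5 : ((q * ∑ n ∈ Icc 1 x, n.factorization q : ℕ) : ℝ) ≤ ((2 * x : ℕ) : ℝ) := by
    exact_mod_cast h4
  push_cast at h5
  linarith

/-- if `ψ ≠ 1` is close to `1` on the primes up to `x` then its sums are large -/
theorem pretend {N : ℕ} [NeZero N] (ψ : DirichletCharacter ℂ N) {A : ℝ}
    (hA : ∀ a b : ℕ, ‖∑ n ∈ Ioc a b, ψ (n : ZMod N)‖ ≤ A) (x : ℕ) :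
    (x : ℝ) ≤ #(Sm N x) * A +
      2 * x * ∑ q ∈ (Icc 1 x).filter (fun q => q.Prime ∧ ¬ q ∣ N), ‖ψ (q : ZMod N) - 1‖ / q := by
  classical
  obtain ⟨R, hR⟩ : ∃ R, R = (Icc 1 x).filter (fun q => q.Prime ∧ ¬ q ∣ N) := ⟨_, rfl⟩
  obtain ⟨G, hG⟩ : ∃ G : ℕ → ℝ, ∀ n, G n =
      ∑ q ∈ R, ((n.factorization q : ℕ) : ℝ) * ‖ψ (q : ZMod N) - 1‖ := ⟨_, fun _ => rfl⟩
  have hG0 : ∀ n, 0 ≤ G n := fun n => by
    rw [hG]
    exact sum_nonneg fun q _ => by positivity
  have hGmul : ∀ a b : ℕ, a ≠ 0 → b ≠ 0 → G (a * b) = G a + G b := by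
    intro a b ha hb
    rw [hG, hG, hG, ← sum_add_distrib]
    refine sum_congr rfl fun q _ => ?_
    rw [Nat.factorization_mul ha hb, Finsupp.add_apply]
    push_cast
    ring
  have hGr : ∀ r ∈ R, G r = ‖ψ (r : ZMod N) - 1‖ := by
    intro r hr
    have hrp : r.Prime := by
      rw [hR, mem_filter] at hr
      exact hr.2.1
    rw [hG, sum_eq_single r]
    · rw [hrp.factorization_self, Nat.cast_one, one_mul]
    · intro q _ hqr
      rw [hrp.factorization, Finsupp.single_apply, if_neg (fun h => hqr h.symm), Nat.cast_zero,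
        zero_mul]
    · intro h
      exact absurd hr h
  -- the bound for `ψ m - 1`
  have hB : ∀ m : ℕ, 1 ≤ m → m ≤ x → Nat.Coprime m N → ‖ψ (m : ZMod N) - 1‖ ≤ G m := by
    intro m
    induction m using Nat.strong_induction_on with
    | _ m ih =>
      intro h1 hx hc
      rcases Nat.eq_or_lt_of_le h1 with h | h
      · rw [← h, Nat.cast_one, map_one, sub_self, norm_zero]
        exact hG0 _
      · have hr := Nat.minFac_prime (n := m) (by omega)
        obtain ⟨m', hm'⟩ := Nat.minFac_dvd m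
        obtain ⟨r, hrdef⟩ : ∃ r, r = Nat.minFac m := ⟨_, rfl⟩
        rw [← hrdef] at hr hm'
        have hm'1 : 1 ≤ m' := by
          rcases Nat.eq_zero_or_pos m' with h0 | h0
          · rw [h0, mul_zero] at hm'
            omega
          · exact h0
        have hlt : m' < m := by
          rw [hm']
          have := hr.two_le
          nlinarith
        have hrm : r ≤ m := by
          rw [hm']
          exact Nat.le_mul_of_pos_right r hm'1
        have hrN : ¬ r ∣ N := by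
          intro hd
          exact Nat.Prime.not_coprime_iff_dvd.2 ⟨r, hr, Dvd.intro _ hm'.symm, hd⟩ hc
        have hrR : r ∈ R := by
          rw [hR, mem_filter, mem_Icc]
          exact ⟨⟨hr.one_lt.le, hrm.trans hx⟩, hr, hrN⟩
        have hc' : Nat.Coprime m' N := Nat.Coprime.coprime_dvd_left (Dvd.intro_left _ hm'.symm) hc
        have h2 := ih m' hlt hm'1 (hlt.le.trans hx) hc'
        have h3 : ψ (m : ZMod N) = ψ (r : ZMod N) * ψ (m' : ZMod N) := by
          rw [← map_mul, ← Nat.cast_mul, ← hm']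
        have h4 : ψ (m : ZMod N) - 1 = ψ (r : ZMod N) * (ψ (m' : ZMod N) - 1) +
            (ψ (r : ZMod N) - 1) := by
          rw [h3]
          ring
        have h5 : G m = ‖ψ (r : ZMod N) - 1‖ + G m' := by
          conv_lhs => rw [hm']
          rw [hGmul r m' hr.ne_zero (by omega), hGr r hrR]
        rw [h4, h5]
        refine (norm_add_le _ _).trans ?_
        rw [norm_mul]
        have h6 := ψ.norm_le_one (r : ZMod N)
        have h7 : ‖ψ (r : ZMod N)‖ * ‖ψ (m' : ZMod N) - 1‖ ≤ 1 * G m' :=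
          mul_le_mul h6 h2 (norm_nonneg _) (by norm_num)
        linarith
  -- the decomposition
  have h1 : (x : ℝ) = ∑ d ∈ Sm N x, ∑ m ∈ (Icc 1 (x / d)).filter (fun m => Nat.Coprime m N),
      (1 : ℝ) := by
    rw [← sum_decomp N x (fun _ => (1 : ℝ))]
    simp
  have h2 : ∀ d ∈ Sm N x, ∑ m ∈ (Icc 1 (x / d)).filter (fun m => Nat.Coprime m N), (1 : ℝ) ≤
      A + ∑ m ∈ (Icc 1 (x / d)).filter (fun m => Nat.Coprime m N), G (d * m) := by
    intro d hd
    rw [mem_Sm] at hd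
    have e1 : ∑ m ∈ (Icc 1 (x / d)).filter (fun m => Nat.Coprime m N), (ψ (m : ZMod N)).re ≤ A := by
      have e2 : ∑ m ∈ (Icc 1 (x / d)).filter (fun m => Nat.Coprime m N), ψ (m : ZMod N) =
          ∑ m ∈ Ioc 0 (x / d), ψ (m : ZMod N) := by
        have e3 : Ioc 0 (x / d) = Icc 1 (x / d) := by
          ext m
          rw [mem_Ioc, mem_Icc]
          omega
        rw [e3]
        refine sum_subset (filter_subset _ _) fun m hm hm' => ?_
        rw [mem_filter, not_and] at hm'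
        have hnc := hm' hm
        apply ψ.map_nonunit
        rw [ZMod.isUnit_iff_coprime]
        exact hnc
      rw [← Complex.re_sum, e2]
      exact (Complex.re_le_norm _).trans (hA _ _)
    have e4 : ∀ m ∈ (Icc 1 (x / d)).filter (fun m => Nat.Coprime m N),
        (1 : ℝ) ≤ (ψ (m : ZMod N)).re + G (d * m) := by
      intro m hm
      rw [mem_filter, mem_Icc] at hm
      have e5 : m ≤ x := hm.1.2.trans (Nat.div_le_self x d)
      have e6 := hB m hm.1.1 e5 hm.2
      have e7 : 1 - (ψ (m : ZMod N)).re ≤ ‖ψ (m : ZMod N) - 1‖ := by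
        have e8 := Complex.re_le_norm (1 - ψ (m : ZMod N))
        rw [Complex.sub_re, Complex.one_re, norm_sub_rev] at e8
        exact e8
      have e9 : G (d * m) = G d + G m := hGmul d m (by omega) (by omega)
      have e10 := hG0 d
      linarith
    refine (sum_le_sum e4).trans ?_
    rw [sum_add_distrib]
    linarith
  have h3 : (x : ℝ) ≤ #(Sm N x) * A + ∑ n ∈ Icc 1 x, G n := by
    calc (x : ℝ) = ∑ d ∈ Sm N x, ∑ m ∈ (Icc 1 (x / d)).filter (fun m => Nat.Coprime m N),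
          (1 : ℝ) := h1
      _ ≤ ∑ d ∈ Sm N x, (A + ∑ m ∈ (Icc 1 (x / d)).filter (fun m => Nat.Coprime m N), G (d * m)) :=
          sum_le_sum h2
      _ = #(Sm N x) * A + ∑ n ∈ Icc 1 x, G n := by
        rw [sum_add_distrib, sum_const, nsmul_eq_mul, sum_decomp N x G]
  have h4 : ∑ n ∈ Icc 1 x, G n ≤ 2 * x * ∑ q ∈ R, ‖ψ (q : ZMod N) - 1‖ / q := by
    have e1 : ∑ n ∈ Icc 1 x, G n = ∑ q ∈ R, (∑ n ∈ Icc 1 x, ((n.factorization q : ℕ) : ℝ)) *
        ‖ψ (q : ZMod N) - 1‖ := by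
      rw [sum_congr rfl fun n _ => hG n, sum_comm]
      refine sum_congr rfl fun q _ => ?_
      rw [sum_mul]
    rw [e1, mul_sum]
    refine sum_le_sum fun q hq => ?_
    rw [hR, mem_filter] at hq
    refine (mul_le_mul_of_nonneg_right (sum_val hq.2.1 x) (norm_nonneg _)).trans (le_of_eq ?_)
    ring
  rw [← hR]
  linarith

end Pool.Agent.Helper87.PN
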