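import Mathlib
import Pool.Agent.Helper26.PE.Primes
import Pool.Agent.Helper26.PG.Gauss
import Pool.Agent.Helper53.KM.G13
import Pool.Agent.Helper87.PN.Pretend

/-!
# A character `ψ ≠ 1` modulo `n` is not close to `1` on the primes up to `S ^ (2 k0)`

PROOF.  `pretend` with `x = S ^ (2 k0 + 3)`, `y = S ^ (1/16)`: the Polya-Vinogradov term is at most `4 S ^ (2 k0 + 2) y ^ 3 ≤ x / 4`,
the primes in `(S ^ (2 k0), x]` contribute at most `x / 4`.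
-/

set_option autoImplicit false

open Finset

namespace Pool.Agent.Helper87.PN

open Pool.Agent.Helper26.PG (PY mem_PY)

/-- growth -/
theorem growth (k0 : ℕ) : ∃ S0 : ℕ, ∀ S : ℕ, S0 ≤ S → (16 : ℝ) ≤ (S : ℝ) ^ (1 / 16 : ℝ) ∧
    ∀ n : ℕ, 1 ≤ n → n < (S + 1) ^ (4 * k0 + 4) →
      (#n.divisors : ℝ) ≤ (S : ℝ) ^ (1 / 16 : ℝ) ∧
      (∀ x : ℕ, x ≤ n → (#(Sm n x) : ℝ) ≤ (S : ℝ) ^ (1 / 16 : ℝ)) ∧
      1 + Real.log n ≤ (S : ℝ) ^ (1 / 16 : ℝ) := by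
  obtain ⟨δ, hδ⟩ : ∃ δ : ℝ, δ = 1 / (32 * (4 * k0 + 4)) := ⟨_, rfl⟩
  have hK : (0 : ℝ) < 4 * k0 + 4 := by positivity
  have hδ0 : 0 < δ := by rw [hδ]; positivity
  obtain ⟨C1, hC1, h1⟩ := Pool.Agent.M17.Helper89.SLE.divisor_bound δ hδ0
  obtain ⟨C2, hC2, h2⟩ := smooth_count δ hδ0
  obtain ⟨C, hC⟩ : ∃ C : ℝ, C = C1 + C2 + 1 + 1 / δ := ⟨_, rfl⟩
  have hC0 : 0 < C := by
    rw [hC]
    have : 0 < 1 / δ := by positivity
    linarith
  have e1 : ∀ᶠ x : ℝ in Filter.atTop, max (2 * C) 16 ≤ x ^ (1 / 32 : ℝ) :=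
    (tendsto_rpow_atTop (by norm_num : (0 : ℝ) < 1 / 32)).eventually_ge_atTop _
  obtain ⟨S0, hS0⟩ := Filter.eventually_atTop.1 (tendsto_natCast_atTop_atTop.eventually e1)
  refine ⟨max S0 1, fun S hS => ?_⟩
  have hS1 : 1 ≤ S := (le_max_right _ _).trans hS
  have hSR : (1 : ℝ) ≤ S := by exact_mod_cast hS1
  have hSpos : (0 : ℝ) < S := by linarith
  obtain ⟨z, hz⟩ : ∃ z : ℝ, z = (S : ℝ) ^ (1 / 32 : ℝ) := ⟨_, rfl⟩
  have hzS := hS0 S ((le_max_left _ _).trans hS)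
  rw [← hz] at hzS
  have hz1 : 2 * C ≤ z := (le_max_left _ _).trans hzS
  have hz2 : 16 ≤ z := (le_max_right _ _).trans hzS
  have hyz : (S : ℝ) ^ (1 / 16 : ℝ) = z * z := by
    rw [hz, ← Real.rpow_add hSpos]
    norm_num
  rw [hyz]
  refine ⟨by nlinarith, fun n hn hnS => ?_⟩
  have hnR : (1 : ℝ) ≤ n := by exact_mod_cast hn
  have hn2 : (n : ℝ) ^ δ ≤ 2 * z := by
    have e2 : (n : ℝ) ≤ (2 * S) ^ (4 * k0 + 4) := by
      have e3 : (n : ℝ) ≤ ((S : ℝ) + 1) ^ (4 * k0 + 4) := by exact_mod_cast hnS.le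
      refine e3.trans (pow_le_pow_left₀ (by positivity) (by linarith) _)
    have e4 : (n : ℝ) ^ δ ≤ ((2 * (S : ℝ)) ^ (4 * k0 + 4)) ^ δ :=
      Real.rpow_le_rpow (by linarith) e2 hδ0.le
    refine e4.trans ?_
    rw [← Real.rpow_natCast, ← Real.rpow_mul (by positivity)]
    have e5 : ((4 * k0 + 4 : ℕ) : ℝ) * δ = 1 / 32 := by
      rw [hδ]
      push_cast
      field_simp
    rw [e5, Real.mul_rpow (by norm_num) (by positivity), ← hz]
    refine mul_le_mul_of_nonneg_right ?_ (by linarith)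
    calc (2 : ℝ) ^ (1 / 32 : ℝ) ≤ (2 : ℝ) ^ (1 : ℝ) :=
          Real.rpow_le_rpow_of_exponent_le (by norm_num) (by norm_num)
      _ = 2 := Real.rpow_one 2
  have hn1 : 1 ≤ (n : ℝ) ^ δ := Real.one_le_rpow hnR hδ0.le
  have key : ∀ c : ℝ, 0 ≤ c → c ≤ C → c * (n : ℝ) ^ δ ≤ z * z := by
    intro c hc0 hcC
    calc c * (n : ℝ) ^ δ ≤ C * (2 * z) := mul_le_mul hcC hn2 (by linarith) hC0.le
      _ = 2 * C * z := by ring
      _ ≤ z * z := mul_le_mul_of_nonneg_right hz1 (by linarith)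
  have hdd : 0 < 1 / δ := by positivity
  refine ⟨?_, fun x hx => ?_, ?_⟩
  · exact (h1 n hn).trans (key C1 (by linarith) (by rw [hC]; linarith))
  · exact (h2 n x hn hx).trans (key C2 hC2.le (by rw [hC]; linarith))
  · have e6 := Real.log_le_rpow_div (show (0 : ℝ) ≤ n by linarith) hδ0
    have e7 := key (1 + 1 / δ) (by linarith) (by rw [hC]; linarith)
    have e8 : (n : ℝ) ^ δ / δ = 1 / δ * (n : ℝ) ^ δ := by ring
    rw [e8] at e6
    linarith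

/-- `√n ≤ 2 S ^ k` -/
theorem sqrt_le {S k p : ℕ} (hS : 2 * k ≤ S) (hS1 : 1 ≤ S) (hp : p < (S + 1) ^ (2 * k)) :
    √(p : ℝ) ≤ 2 * (S : ℝ) ^ k := by
  have hS0 : (0 : ℝ) < S := by exact_mod_cast hS1
  have h1 : √(p : ℝ) ≤ ((S : ℝ) + 1) ^ k := by
    rw [Real.sqrt_le_left (by positivity), ← pow_mul, mul_comm k 2]
    exact_mod_cast hp.le
  refine h1.trans ?_
  have h2 : ((S : ℝ) + 1) ^ k = (S : ℝ) ^ k * (1 + 1 / (S : ℝ)) ^ k := by
    rw [← mul_pow]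
    congr 1
    field_simp
  have h3 : (1 + 1 / (S : ℝ)) ^ k ≤ 2 := by
    have h4 : 1 + 1 / (S : ℝ) ≤ Real.exp (1 / (S : ℝ)) := by
      have := Real.add_one_le_exp (1 / (S : ℝ))
      linarith
    have h5 : (1 + 1 / (S : ℝ)) ^ k ≤ Real.exp (1 / (S : ℝ)) ^ k :=
      pow_le_pow_left₀ (by positivity) h4 k
    rw [← Real.exp_nat_mul] at h5
    refine h5.trans ?_
    have h6 : (k : ℝ) * (1 / (S : ℝ)) ≤ 1 / 2 := by
      rw [mul_one_div, div_le_iff₀ hS0]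
      have : (2 : ℝ) * k ≤ S := by exact_mod_cast hS
      linarith
    refine (Real.exp_le_exp.2 h6).trans ?_
    have h7 : Real.exp (1 / 2) ^ 2 ≤ 2 ^ 2 := by
      rw [← Real.exp_nat_mul]
      have h8 : ((2 : ℕ) : ℝ) * (1 / 2) = 1 := by norm_num
      rw [h8]
      have := Real.exp_one_lt_d9
      linarith
    exact (pow_le_pow_iff_left₀ (Real.exp_pos _).le (by norm_num) (by norm_num)).1 h7
  rw [h2, mul_comm]
  exact mul_le_mul_of_nonneg_right h3 (by positivity)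

/-- the lower bound -/
theorem eta : ∃ k1 : ℕ, ∀ k0 : ℕ, k1 ≤ k0 → ∃ S0 : ℕ, ∀ S : ℕ, S0 ≤ S →
    ∀ (n : ℕ) [NeZero n], S ^ (4 * k0 + 4) ≤ n → n < (S + 1) ^ (4 * k0 + 4) →
    ∀ ψ : DirichletCharacter ℂ n, ψ ≠ 1 →
      1 / 4 ≤ ∑ q ∈ PY n (S ^ (2 * k0)), ‖ψ (q : ZMod n) - 1‖ / q := by
  classical
  obtain ⟨C, hC, hmb⟩ := Pool.Agent.Helper26.PE.mertens_block
  refine ⟨⌈40 * C⌉₊ + 1, fun k0 hk0 => ?_⟩
  have hk1 : 1 ≤ k0 := by omega
  have hkC : 40 * C ≤ (k0 : ℝ) := by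
    refine (Nat.le_ceil _).trans ?_
    exact_mod_cast (by omega : ⌈40 * C⌉₊ ≤ k0)
  have hk0R : (0 : ℝ) < k0 := by exact_mod_cast hk1
  obtain ⟨S0, hS0⟩ := growth k0
  refine ⟨max S0 (max 10 (4 * k0 + 4)), fun S hS n _ hn1 hn2 ψ hψ => ?_⟩
  have hS10 : 10 ≤ S := (le_max_left _ _).trans ((le_max_right _ _).trans hS)
  have hSk : 4 * k0 + 4 ≤ S := (le_max_right _ _).trans ((le_max_right _ _).trans hS)
  obtain ⟨hy16, hgr⟩ := hS0 S ((le_max_left _ _).trans hS)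
  have hSR : (10 : ℝ) ≤ S := by exact_mod_cast hS10
  have hSpos : (0 : ℝ) < S := by linarith
  have hn0 : 1 ≤ n := Nat.one_le_iff_ne_zero.2 (NeZero.ne n)
  obtain ⟨hτ, hsm, hlog⟩ := hgr n hn0 hn2
  have hlog1 : 1 ≤ Real.log S := by
    rw [Real.le_log_iff_exp_le hSpos]
    have := Real.exp_one_lt_d9
    linarith
  obtain ⟨y, hy⟩ : ∃ y : ℝ, y = (S : ℝ) ^ (1 / 16 : ℝ) := ⟨_, rfl⟩
  rw [← hy] at hy16 hτ hlog
  have hSy : (S : ℝ) = y ^ 16 := by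
    rw [hy, ← Real.rpow_natCast, ← Real.rpow_mul hSpos.le]
    norm_num
  obtain ⟨x, hx⟩ : ∃ x : ℕ, x = S ^ (2 * k0 + 3) := ⟨_, rfl⟩
  have hxn : x ≤ n := by
    refine le_trans ?_ hn1
    rw [hx]
    exact Nat.pow_le_pow_right (by omega) (by omega)
  have hsmx := hsm x hxn
  rw [← hy] at hsmx
  have hY2 : 2 ≤ S ^ (2 * k0) := by
    calc 2 ≤ S := by omega
      _ = S ^ 1 := (pow_one S).symm
      _ ≤ S ^ (2 * k0) := Nat.pow_le_pow_right (by omega) (by omega)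
  have hYx : S ^ (2 * k0) ≤ x := by
    rw [hx]
    exact Nat.pow_le_pow_right (by omega) (by omega)
  have key := pretend ψ (fun a b => Pool.Agent.Helper26.PG.pv ψ hψ a b) x
  have hPx : (Icc 1 x).filter (fun q => q.Prime ∧ ¬ q ∣ n) = PY n x := rfl
  rw [hPx] at key
  -- the Polya-Vinogradov term
  obtain ⟨B, hB⟩ : ∃ B : ℝ, B = (S : ℝ) ^ (2 * k0 + 2) := ⟨_, rfl⟩
  have hBpos : 0 < B := by rw [hB]; positivity
  have hxR : (x : ℝ) = B * S := by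
    rw [hB, hx]
    push_cast
    ring
  have hsq : √(n : ℝ) ≤ 2 * B := by
    rw [hB]
    refine sqrt_le (by omega) (by omega) ?_
    have : 2 * (2 * k0 + 2) = 4 * k0 + 4 := by ring
    rw [this]
    exact hn2
  have hlog0 : 0 ≤ 1 + Real.log n := by
    have : 0 ≤ Real.log n := Real.log_natCast_nonneg n
    linarith
  have hA : (#(Sm n x) : ℝ) * (2 * √(n : ℝ) * #n.divisors * (1 + Real.log n)) ≤ x / 4 := by
    have hy0 : 0 < y := by linarith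
    calc (#(Sm n x) : ℝ) * (2 * √(n : ℝ) * #n.divisors * (1 + Real.log n))
        ≤ y * (2 * (2 * B) * y * y) := by
          refine mul_le_mul hsmx ?_ (mul_nonneg (mul_nonneg (mul_nonneg (by norm_num)
            (Real.sqrt_nonneg _)) (Nat.cast_nonneg _)) hlog0) hy0.le
          refine mul_le_mul ?_ hlog hlog0 (by positivity)
          refine mul_le_mul ?_ hτ (Nat.cast_nonneg _) (by positivity)
          linarith
      _ = B * (16 * y ^ 3) / 4 := by ring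
      _ ≤ B * y ^ 16 / 4 := by
          refine div_le_div_of_nonneg_right (mul_le_mul_of_nonneg_left ?_ hBpos.le) (by norm_num)
          calc 16 * y ^ 3 ≤ y * y ^ 3 := mul_le_mul_of_nonneg_right hy16 (by positivity)
            _ = y ^ 4 := by ring
            _ ≤ y ^ 16 := pow_le_pow_right₀ (by linarith) (by norm_num)
      _ = x / 4 := by rw [hxR, ← hSy]
  -- the large primes
  have h3 : ∑ q ∈ (Ioc (S ^ (2 * k0)) x).filter Nat.Prime, 1 / (q : ℝ) ≤ 1 / 16 := by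
    refine (hmb (S ^ (2 * k0)) x hY2 hYx).trans ?_
    have h5 : (x : ℝ) / ((S ^ (2 * k0) : ℕ) : ℝ) = (S : ℝ) ^ 3 := by
      rw [hx]
      push_cast
      rw [pow_add]
      field_simp
    have h7 : Real.log ((S ^ (2 * k0) : ℕ) : ℝ) = 2 * (k0 : ℝ) * Real.log S := by
      push_cast
      rw [Real.log_pow]
      push_cast
      ring
    rw [h7, h5, Real.log_pow, div_le_iff₀ (by positivity)]
    push_cast
    calc C * (1 + 3 * Real.log S)
        ≤ C * (5 * Real.log S) := mul_le_mul_of_nonneg_left (by linarith) hC.le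
      _ = (40 * C) * (Real.log S / 8) := by ring
      _ ≤ (k0 : ℝ) * (Real.log S / 8) := mul_le_mul_of_nonneg_right hkC (by positivity)
      _ = 1 / 16 * (2 * (k0 : ℝ) * Real.log S) := by ring
  have hsplit : ∑ q ∈ PY n x, ‖ψ (q : ZMod n) - 1‖ / q ≤
      ∑ q ∈ PY n (S ^ (2 * k0)), ‖ψ (q : ZMod n) - 1‖ / q + 1 / 8 := by
    have e1 : PY n x ⊆ PY n (S ^ (2 * k0)) ∪ (Ioc (S ^ (2 * k0)) x).filter Nat.Prime := by
      intro q hq
      rw [mem_PY] at hq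
      rw [mem_union, mem_PY, mem_filter, mem_Ioc]
      rcases Nat.lt_or_ge (S ^ (2 * k0)) q with h | h
      · exact Or.inr ⟨⟨h, hq.1⟩, hq.2.1⟩
      · exact Or.inl ⟨h, hq.2⟩
    have e2 : ∀ q : ℕ, 0 ≤ ‖ψ (q : ZMod n) - 1‖ / (q : ℝ) := fun q => by positivity
    refine (sum_le_sum_of_subset_of_nonneg e1 fun q _ _ => e2 q).trans ?_
    have e3 : ∑ q ∈ PY n (S ^ (2 * k0)) ∪ (Ioc (S ^ (2 * k0)) x).filter Nat.Prime,
        ‖ψ (q : ZMod n) - 1‖ / (q : ℝ) ≤ ∑ q ∈ PY n (S ^ (2 * k0)), ‖ψ (q : ZMod n) - 1‖ / (q : ℝ) +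
          ∑ q ∈ (Ioc (S ^ (2 * k0)) x).filter Nat.Prime, ‖ψ (q : ZMod n) - 1‖ / (q : ℝ) := by
      rw [← sum_union_inter]
      have : 0 ≤ ∑ q ∈ PY n (S ^ (2 * k0)) ∩ (Ioc (S ^ (2 * k0)) x).filter Nat.Prime,
          ‖ψ (q : ZMod n) - 1‖ / (q : ℝ) := sum_nonneg fun q _ => e2 q
      linarith
    refine e3.trans (add_le_add le_rfl ?_)
    calc ∑ q ∈ (Ioc (S ^ (2 * k0)) x).filter Nat.Prime, ‖ψ (q : ZMod n) - 1‖ / (q : ℝ)
        ≤ ∑ q ∈ (Ioc (S ^ (2 * k0)) x).filter Nat.Prime, 2 * (1 / (q : ℝ)) := by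
          refine sum_le_sum fun q _ => ?_
          rw [mul_one_div]
          refine div_le_div_of_nonneg_right ?_ (Nat.cast_nonneg q)
          refine (norm_sub_le _ _).trans ?_
          rw [norm_one]
          have := ψ.norm_le_one (q : ZMod n)
          linarith
      _ = 2 * ∑ q ∈ (Ioc (S ^ (2 * k0)) x).filter Nat.Prime, 1 / (q : ℝ) := by rw [mul_sum]
      _ ≤ 1 / 8 := by linarith
  have hx0 : 0 < (x : ℝ) := by
    rw [hxR]
    positivity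
  have h6 : (x : ℝ) ≤ x / 4 + 2 * x * (∑ q ∈ PY n (S ^ (2 * k0)), ‖ψ (q : ZMod n) - 1‖ / q +
      1 / 8) :=
    key.trans (add_le_add hA (mul_le_mul_of_nonneg_left hsplit (by positivity)))
  have h7 : (x : ℝ) * (1 / 2) ≤ x * (2 * ∑ q ∈ PY n (S ^ (2 * k0)), ‖ψ (q : ZMod n) - 1‖ / q) := by
    linarith
  have h8 := le_of_mul_le_mul_left h7 hx0
  linarith

end Pool.Agent.Helper87.PN
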