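import Mathlib
import Pool.Agent.Helper26.PG.Uniq
import Pool.Agent.Helper87.PN.Eta

/-!
# PG-Fin2: `F` is close to a quadratic character modulo `n`
-/

set_option autoImplicit false

open Finset

namespace Pool.Agent.Helper87.PN

open Pool.Agent.Helper26.PG (F dl PY mem_PY legendre_close)

theorem le_tau_mul_totient (n : ℕ) : n ≤ #n.divisors * n.totient := by
  rcases Nat.eq_zero_or_pos n with h | h
  · omega
  · calc n = ∑ d ∈ n.divisors, d.totient := (Nat.sum_totient n).symm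
      _ ≤ ∑ d ∈ n.divisors, n.totient := by
        refine sum_le_sum fun d hd => ?_
        exact Nat.le_of_dvd (Nat.totient_pos.2 h) (Nat.totient_dvd_of_dvd (Nat.dvd_of_mem_divisors hd))
      _ = #n.divisors * n.totient := by rw [sum_const, smul_eq_mul]

theorem recip_PY (n Y : ℕ) : ∑ q ∈ PY n Y, 1 / (q : ℝ) ≤ 1 + Real.log Y := by
  have h1 : ∑ q ∈ PY n Y, 1 / (q : ℝ) ≤ ∑ q ∈ Icc 1 Y, 1 / (q : ℝ) :=
    sum_le_sum_of_subset_of_nonneg (filter_subset _ _) fun i _ _ => by positivity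
  refine h1.trans (le_trans (le_of_eq ?_) (harmonic_le_one_add_log Y))
  rw [harmonic_eq_sum_Icc]
  push_cast
  exact sum_congr rfl fun i _ => one_div _

theorem exists_ne_one {n : ℕ} [NeZero n] (hn : 2 < n) : ∃ ψ : DirichletCharacter ℂ n, ψ ≠ 1 := by
  have h1 : (-1 : ZMod n) ≠ 1 := by
    have : Fact (2 < n) := ⟨hn⟩
    exact ZMod.neg_one_ne_one
  obtain ⟨ψ, hψ⟩ := DirichletCharacter.exists_apply_ne_one_of_hasEnoughRootsOfUnity ℂ h1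
  refine ⟨ψ, fun h => hψ ?_⟩
  rw [h]
  exact MulChar.one_apply isUnit_one.neg

theorem fin_two : ∃ k1 : ℕ, ∀ k0 : ℕ, k1 ≤ k0 → ∃ S0 : ℕ, ∀ S : ℕ, S0 ≤ S →
    ∀ (n : ℕ) [NeZero n], S ^ (4 * k0 + 4) ≤ n → n < (S + 1) ^ (4 * k0 + 4) →
    ∑ q ∈ PY n (S ^ (2 * k0)), dl n q / q ≤ (S : ℝ) ^ (-(1 / 2) : ℝ) →
    ∃ (χ : DirichletCharacter ℂ n) (s : ℝ), χ ^ 2 = 1 ∧ χ ≠ 1 ∧
      ∑ q ∈ PY n (S ^ (2 * k0)), ‖χ (q : ZMod n) + 1‖ ^ 2 / q ≤
        (S : ℝ) ^ (-(1 / 4) : ℝ) ∧ (s = 1 ∨ s = -1) ∧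
      (Set.ncard {x : ZMod n | IsUnit x ∧ (F x : ℂ) * χ x ≠ s} : ℝ) ≤
        4 * (S : ℝ) ^ (-(1 / 4) : ℝ) * n := by
  obtain ⟨k1, hk1⟩ := eta
  refine ⟨k1, fun k0 hk0 => ?_⟩
  obtain ⟨S1, hS1⟩ := hk1 k0 hk0
  obtain ⟨S2, hS2⟩ := growth k0
  refine ⟨max S1 (max S2 3), fun S hS n _ hn1 hn2 hΔ => ?_⟩
  have hSS1 : S1 ≤ S := (le_max_left _ _).trans hS
  have hSS2 : S2 ≤ S := (le_max_left _ _).trans ((le_max_right _ _).trans hS)
  have hS3 : 3 ≤ S := (le_max_right _ _).trans ((le_max_right _ _).trans hS)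
  have hη := hS1 S hSS1 n hn1 hn2
  obtain ⟨hy16, hgr⟩ := hS2 S hSS2
  have hSpos : (0 : ℝ) < S := by
    have : 0 < S := by omega
    exact_mod_cast this
  have hn0 : 1 ≤ n := Nat.one_le_iff_ne_zero.2 (NeZero.ne n)
  obtain ⟨hτ, -, hlog⟩ := hgr n hn0 hn2
  have hSn : S ≤ n := by
    refine le_trans ?_ hn1
    exact Nat.le_self_pow (by omega) S
  have hYn : S ^ (2 * k0) ≤ n := by
    refine le_trans ?_ hn1
    exact Nat.pow_le_pow_right (by omega) (by omega)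
  obtain ⟨y, hy⟩ : ∃ y : ℝ, y = (S : ℝ) ^ (1 / 16 : ℝ) := ⟨_, rfl⟩
  rw [← hy] at hy16 hτ hlog
  have hy0 : 0 < y := by linarith
  have hθ : (S : ℝ) ^ (-(1 / 4) : ℝ) = (y ^ 4)⁻¹ := by
    rw [Real.rpow_neg hSpos.le, hy, ← Real.rpow_natCast, ← Real.rpow_mul hSpos.le]
    norm_num
  have hΔ' : (S : ℝ) ^ (-(1 / 2) : ℝ) = (y ^ 8)⁻¹ := by
    rw [Real.rpow_neg hSpos.le, hy, ← Real.rpow_natCast, ← Real.rpow_mul hSpos.le]
    norm_num
  have hnR : (0 : ℝ) < n := by exact_mod_cast hn0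
  have hφ : (0 : ℝ) < n.totient := by exact_mod_cast Nat.totient_pos.2 hn0
  have hnφ : (n : ℝ) ≤ y * n.totient := by
    have e1 : (n : ℝ) ≤ #n.divisors * n.totient := by exact_mod_cast le_tau_mul_totient n
    exact e1.trans (mul_le_mul_of_nonneg_right hτ hφ.le)
  have hy4 : 0 < y ^ 4 := by positivity
  have h4 : 4 * n * (y ^ 8)⁻¹ < (y ^ 4)⁻¹ * n.totient := by
    have e1 : 4 * (n : ℝ) * (y ^ 8)⁻¹ ≤ 4 * (y * n.totient) * (y ^ 8)⁻¹ :=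
      mul_le_mul_of_nonneg_right (by linarith) (by positivity)
    have e2 : 4 * (y * n.totient) * (y ^ 8)⁻¹ = (y ^ 4)⁻¹ * n.totient * (4 / y ^ 3) := by
      field_simp
    have e3 : 4 / y ^ 3 < 1 := by
      rw [div_lt_one (by positivity)]
      have : (16 : ℝ) ^ 3 ≤ y ^ 3 := pow_le_pow_left₀ (by norm_num) hy16 3
      norm_num at this
      linarith
    have e4 : 0 < (y ^ 4)⁻¹ * (n.totient : ℝ) := by positivity
    rw [e2] at e1
    nlinarith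
  have hrec : ∑ q ∈ PY n (S ^ (2 * k0)), 1 / (q : ℝ) ≤ y := by
    refine (recip_PY _ _).trans (le_trans ?_ hlog)
    have e1 : Real.log ((S ^ (2 * k0) : ℕ) : ℝ) ≤ Real.log n := by
      refine Real.log_le_log ?_ (by exact_mod_cast hYn)
      have : 0 < S ^ (2 * k0) := Nat.pow_pos (by omega)
      exact_mod_cast this
    linarith
  have hθη : 2 * (√((y ^ 4)⁻¹) * √(∑ q ∈ PY n (S ^ (2 * k0)), 1 / (q : ℝ))) ≤ 1 / 8 := by
    have e1 : √((y ^ 4)⁻¹) = (y ^ 2)⁻¹ := by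
      rw [show (y ^ 4)⁻¹ = ((y ^ 2)⁻¹) ^ 2 by rw [inv_pow, ← pow_mul], Real.sqrt_sq (by positivity)]
    have e2 : √(∑ q ∈ PY n (S ^ (2 * k0)), 1 / (q : ℝ)) ≤ y := by
      rw [Real.sqrt_le_left hy0.le]
      refine hrec.trans ?_
      nlinarith
    rw [e1]
    calc 2 * ((y ^ 2)⁻¹ * √(∑ q ∈ PY n (S ^ (2 * k0)), 1 / (q : ℝ)))
        ≤ 2 * ((y ^ 2)⁻¹ * y) := by
          refine mul_le_mul_of_nonneg_left (mul_le_mul_of_nonneg_left e2 (by positivity)) (by norm_num)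
      _ = 2 / y := by field_simp
      _ ≤ 1 / 8 := by
        rw [div_le_iff₀ hy0]
        linarith
  have h1 : (y ^ 4)⁻¹ < ∑ q ∈ PY n (S ^ (2 * k0)), 4 / (q : ℝ) := by
    obtain ⟨ψ, hψ⟩ := exists_ne_one (n := n) (by omega)
    have e1 := hη ψ hψ
    have e2 : ∑ q ∈ PY n (S ^ (2 * k0)), ‖ψ (q : ZMod n) - 1‖ / q ≤
        ∑ q ∈ PY n (S ^ (2 * k0)), 4 / (q : ℝ) := by
      refine sum_le_sum fun q _ => ?_
      refine div_le_div_of_nonneg_right ?_ (Nat.cast_nonneg q)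
      refine (norm_sub_le _ _).trans ?_
      rw [norm_one]
      have := ψ.norm_le_one (q : ZMod n)
      linarith
    have e3 : (y ^ 4)⁻¹ < 1 / 4 := by
      rw [inv_lt_comm₀ hy4 (by norm_num)]
      have : (16 : ℝ) ^ 4 ≤ y ^ 4 := pow_le_pow_left₀ (by norm_num) hy16 4
      norm_num at this ⊢
      linarith
    linarith
  rw [hΔ'] at hΔ
  obtain ⟨χ, s, g1, g2, g3, g4, g5⟩ := legendre_close (n := n) (Y := S ^ (2 * k0))
    (θ := (y ^ 4)⁻¹) (Δ := (y ^ 8)⁻¹) (η := 1 / 8) (by positivity) hΔ h4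
    (fun ψ hψ => lt_of_lt_of_le (by norm_num) (hη ψ hψ)) hθη h1
  refine ⟨χ, s, g1, g2, ?_, g4, ?_⟩
  · rw [hθ]
    exact g3
  · rw [hθ]
    refine g5.trans (le_of_eq ?_)
    field_simp

end Pool.Agent.Helper87.PN
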